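import Pool.Agent.Helper361_centerflat.Point

/-!
The centerflat conjecture of Bukh, Matousek and Nivasch fails for lines in four-dimensional space:
`(k + 1) |X| / (d + k + 1)` with `d = 4` and `k = 1`. The set `X` is a stretched grid.
-/

theorem Pool.Agent.Results.MP_5d7aef_co.CenterflatDisproof.result (m : ℕ) :
    ∃ X : Finset (EuclideanSpace ℝ (Fin 4)), m ≤ X.card ∧
      ∀ L : AffineSubspace ℝ (EuclideanSpace ℝ (Fin 4)),
        (L : Set (EuclideanSpace ℝ (Fin 4))).Nonempty → Module.finrank ℝ L.direction = 1 →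
        ∃ (a : EuclideanSpace ℝ (Fin 4)) (b : ℝ), a ≠ 0 ∧ (∀ x ∈ L, inner ℝ a x ≤ b) ∧
          ((X.filter (fun x => inner ℝ a x ≤ b)).card : ℝ)
            < (1 + 1) * (X.card : ℝ) / (4 + 1 + 1) := by
  obtain ⟨X, hX, h⟩ := Pool.Agent.Helper361_centerflat.counterexample
    (n := 10 ^ 7 + m) (Nat.le_add_right _ _)
  refine ⟨X, ?_, ?_⟩
  · rw [hX]
    calc m ≤ 10 ^ 7 + m := Nat.le_add_left _ _
      _ ≤ (10 ^ 7 + m) ^ 5 := Nat.le_self_pow (by norm_num) _
  · intro L hL hL1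
    obtain ⟨a, b, ha, hab, hc⟩ := h L hL hL1
    refine ⟨a, b, ha, hab, ?_⟩
    linarith
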